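import Pool.Agent.Helper96.TG.Wf
import Pool.Agent.Helper57.TG.Cas
import Pool.Agent.Helper59.TG.R2b
import Pool.Agent.Helper11.TG.R4A

/-!
# The operator of a tangle is a polynomial in the Casimir operator
-/

namespace Pool.Agent.Helper9.Kashaev

open Finset
open Pool.Agent.Helper9.TG
open scoped Matrix

/-! ### one more strand -/

lemma r3_wf_right {n m : ℕ} {D : Diagram} (h : wf n D m) : wf (n + 1) D (m + 1) := by
  induction D generalizing n with
  | nil => simp only [wf] at h ⊢; omega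
  | cons s D ih =>
    obtain ⟨k, p⟩ := s
    cases p with
    | cup =>
      simp only [wf] at h ⊢
      refine ⟨by omega, ?_⟩
      have := ih h.2
      rwa [show n + 2 + 1 = n + 1 + 2 by ring] at this
    | cap =>
      simp only [wf] at h ⊢
      refine ⟨by omega, ?_⟩
      have := ih h.2
      rwa [show n - 2 + 1 = n + 1 - 2 by omega] at this
    | pos =>
      simp only [wf] at h ⊢
      exact ⟨by omega, ih h.2⟩
    | neg =>
      simp only [wf] at h ⊢
      exact ⟨by omega, ih h.2⟩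

/-! ### linearity of the polynomials -/

/-- one step of the recursion -/
noncomputable def r3_st (N m : ℕ) (g : List ℕ → ℂ) : List ℕ → ℂ :=
  fun u => (TB.bb N (m + 1 : ℕ))⁻¹ * (Cas N g u - TB.lam N m * g u)

lemma r3_nC_succ (N m : ℕ) (f : List ℕ → ℂ) : nC N (m + 1) f = r3_st N m (nC N m f) := rfl

lemma r3_st_add (N m : ℕ) (f g : List ℕ → ℂ) :
    r3_st N m (fun u => f u + g u) = fun u => r3_st N m f u + r3_st N m g u := by
  funext u
  unfold r3_st
  rw [h57_Cas_add]
  ring

lemma r3_st_smul (N m : ℕ) (c : ℂ) (f : List ℕ → ℂ) :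
    r3_st N m (fun u => c * f u) = fun u => c * r3_st N m f u := by
  funext u
  unfold r3_st
  rw [h57_Cas_smul]
  ring

lemma r3_nC_add (N m : ℕ) (f g : List ℕ → ℂ) :
    nC N m (fun u => f u + g u) = fun u => nC N m f u + nC N m g u := by
  induction m with
  | zero => rfl
  | succ m ih => rw [r3_nC_succ, ih, r3_st_add]; rfl

lemma r3_nC_smul (N m : ℕ) (c : ℂ) (f : List ℕ → ℂ) :
    nC N m (fun u => c * f u) = fun u => c * nC N m f u := by
  induction m with
  | zero => rfl
  | succ m ih => rw [r3_nC_succ, ih, r3_st_smul]; rfl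

/-- the combination of the polynomials as a linear map -/
noncomputable def r3_L (N : ℕ) (w : Fin N → ℂ) : (List ℕ → ℂ) →ₗ[ℂ] (List ℕ → ℂ) where
  toFun f := fun u => ∑ m : Fin N, w m * nC N m f u
  map_add' f g := by
    funext u
    have : ∀ m : Fin N, nC N m (f + g) u = nC N m f u + nC N m g u := fun m =>
      congrFun (r3_nC_add N m f g) u
    simp only [this, mul_add, sum_add_distrib, Pi.add_apply]
  map_smul' c f := by
    funext u
    have : ∀ m : Fin N, nC N m (c • f) u = c * nC N m f u := fun m =>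
      congrFun (r3_nC_smul N m c f) u
    simp only [this, Pi.smul_apply, smul_eq_mul, RingHom.id_apply, mul_sum]
    apply sum_congr rfl
    intro m _
    ring

lemma r3_L_apply (N : ℕ) (w : Fin N → ℂ) (f : List ℕ → ℂ) (u : List ℕ) :
    r3_L N w f u = ∑ m : Fin N, w m * nC N m f u := rfl

/-! ### locality -/

lemma r3_Cas_congr {N : ℕ} {f g : List ℕ → ℂ} (hfg : ∀ a b : ℕ, f [a, b] = g [a, b]) (a b : ℕ) :
    Cas N f [a, b] = Cas N g [a, b] := by
  rw [h57_Cas_expl, h57_Cas_expl, hfg, hfg, hfg]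

lemma r3_nC_congr {N m : ℕ} {f g : List ℕ → ℂ} (hfg : ∀ a b : ℕ, f [a, b] = g [a, b]) :
    ∀ a b : ℕ, nC N m f [a, b] = nC N m g [a, b] := by
  induction m with
  | zero => exact hfg
  | succ m ih =>
    intro a b
    simp only [nC]
    rw [r3_Cas_congr ih, ih]

lemma r3_nC_right (N m : ℕ) (f : List ℕ → ℂ) (w : List ℕ) :
    ∀ a b : ℕ, nC N m f (a :: b :: w) = nC N m (fun u => f (u ++ w)) [a, b] := by
  induction m with
  | zero => intro a b; rfl
  | succ m ih =>
    intro a b
    simp only [nC]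
    rw [h57_Cas_expl, h57_Cas_expl, ih, ih, ih]

lemma r3_nC_Sup {N m n : ℕ} {f : List ℕ → ℂ} (hf : Sup N (n + 2) f) :
    Sup N (n + 2) (nC N m f) := by
  induction m with
  | zero => exact hf
  | succ m ih =>
    intro u hu
    simp only [nC]
    rw [ih u hu, Cas_Sup ih u hu]
    ring

lemma r3_L_Sup {N n : ℕ} (w : Fin N → ℂ) {f : List ℕ → ℂ} (hf : Sup N (n + 2) f) :
    Sup N (n + 2) (r3_L N w f) := by
  intro u hu
  rw [r3_L_apply]
  apply sum_eq_zero
  intro m _
  rw [r3_nC_Sup hf u hu, mul_zero]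

lemma r3_nC_F {N m n : ℕ} (hN : 2 ≤ N) {f : List ℕ → ℂ} (hf : Sup N (n + 2) f) :
    nC N m (Fop N f) = Fop N (nC N m f) := by
  induction m with
  | zero => rfl
  | succ m ih =>
    have h1 : nC N (m + 1) (Fop N f) = fun u => (TB.bb N (m + 1 : ℕ))⁻¹ *
        (Fop N (Cas N (nC N m f)) u - TB.lam N m * Fop N (nC N m f) u) := by
      funext u
      simp only [nC]
      rw [ih, Cas_F hN (r3_nC_Sup hf)]
    rw [h1]
    funext u
    have h2 : nC N (m + 1) f = fun u => (TB.bb N (m + 1 : ℕ))⁻¹ *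
        ((fun u => Cas N (nC N m f) u + (-TB.lam N m) * nC N m f u) u) := by
      funext u
      simp only [nC]
      ring
    rw [h2, Fop_smul, Fop_add N (fun u => Cas N (nC N m f) u)
      (fun u => (-TB.lam N m) * nC N m f u), Fop_smul]
    ring

lemma r3_Fop_sum {N : ℕ} {ι : Type*} (s : Finset ι) (F : ι → List ℕ → ℂ) (w : List ℕ) :
    Fop N (fun u => ∑ i ∈ s, F i u) w = ∑ i ∈ s, Fop N (F i) w := by
  classical
  induction s using Finset.induction_on with
  | empty => simpa using Fop_zero_fun N w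
  | insert a s ha ih =>
    have : (fun u => ∑ i ∈ insert a s, F i u) = fun u => F a u + (fun u => ∑ i ∈ s, F i u) u := by
      funext u; rw [sum_insert ha]
    rw [this, Fop_add, ih, sum_insert ha]

lemma r3_L_F {N n : ℕ} (hN : 2 ≤ N) (w : Fin N → ℂ) {f : List ℕ → ℂ} (hf : Sup N (n + 2) f) :
    r3_L N w (Fop N f) = Fop N (r3_L N w f) := by
  funext u
  have : r3_L N w f = fun u => ∑ m : Fin N, (fun u => w m * nC N m f u) u := rfl
  rw [this, r3_Fop_sum, r3_L_apply]
  apply sum_congr rfl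
  intro m _
  rw [Fop_smul, r3_nC_F hN hf]

/-! ### invariant vectors -/

lemma r3_Eop_zero (N : ℕ) : Eop N (fun _ => 0) = fun _ => 0 := by
  funext w; exact Eop_zero_fun N w

lemma r3_H0_add {N : ℕ} {f g : List ℕ → ℂ} (hf : H0 N f) (hg : H0 N g) :
    H0 N (fun u => f u + g u) where
  sup := fun u hu => by
    show f u + g u = 0
    rw [hf.sup u hu, hg.sup u hu, add_zero]
  kerE := by
    funext u
    rw [Eop_add, hf.kerE, hg.kerE]
    simp
  lev := fun a b c h => by rw [hf.lev a b c h, hg.lev a b c h, add_zero]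

lemma r3_H0_smul {N : ℕ} {f : List ℕ → ℂ} (c : ℂ) (hf : H0 N f) :
    H0 N (fun u => c * f u) where
  sup := fun u hu => by
    show c * f u = 0
    rw [hf.sup u hu, mul_zero]
  kerE := by
    funext u
    rw [Eop_smul, hf.kerE]
    simp
  lev := fun a b d h => by rw [hf.lev a b d h, mul_zero]

lemma r3_H0_zero (N : ℕ) : H0 N (fun _ => 0) where
  sup := fun _ _ => rfl
  kerE := by funext u; rw [Eop_zero_fun]; rfl
  lev := fun _ _ _ _ => rfl

lemma r3_crd_add (N : ℕ) (f g : List ℕ → ℂ) :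
    crd N (fun u => f u + g u) = crd N f + crd N g := by
  funext l
  simp only [crd, gg, Pi.add_apply]
  ring

lemma r3_crd_smul (N : ℕ) (c : ℂ) (f : List ℕ → ℂ) :
    crd N (fun u => c * f u) = c • crd N f := by
  funext l
  simp only [crd, gg, Pi.smul_apply, smul_eq_mul]
  ring

lemma r3_sum {N : ℕ} {ι : Type*} (s : Finset ι) (F : ι → List ℕ → ℂ) (v : ι → Fin N → ℂ)
    (h : ∀ i ∈ s, H0 N (F i) ∧ crd N (F i) = v i) :
    H0 N (fun u => ∑ i ∈ s, F i u) ∧ crd N (fun u => ∑ i ∈ s, F i u) = ∑ i ∈ s, v i := by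
  classical
  induction s using Finset.induction_on with
  | empty =>
    simp only [sum_empty]
    refine ⟨r3_H0_zero N, ?_⟩
    funext l
    simp [crd, gg]
  | insert a s ha ih =>
    have h1 : (fun u => ∑ i ∈ insert a s, F i u) =
        fun u => F a u + (fun u => ∑ i ∈ s, F i u) u := by
      funext u; rw [sum_insert ha]
    have h2 := ih (fun i hi => h i (mem_insert_of_mem hi))
    have h3 := h a (mem_insert_self a s)
    rw [h1, sum_insert ha]
    exact ⟨r3_H0_add h3.1 h2.1, by rw [r3_crd_add, h3.2, h2.2]⟩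

/-- general recursion -/
lemma r3_poly {N : ℕ} (C : (List ℕ → ℂ) → List ℕ → ℂ) (L : Matrix (Fin N) (Fin N) ℂ)
    (hC : ∀ f, H0 N f → H0 N (C f) ∧ crd N (C f) = L *ᵥ crd N f)
    (b l : ℂ) {f : List ℕ → ℂ} (hf : H0 N f) :
    H0 N (fun u => b * (C f u - l * f u)) ∧ crd N (fun u => b * (C f u - l * f u)) =
      (b • (L - l • (1 : Matrix (Fin N) (Fin N) ℂ))) *ᵥ crd N f := by
  have h1 : (fun u => b * (C f u - l * f u)) =
      fun u => b * ((fun u => C f u + (fun u => (-l) * f u) u) u) := by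
    funext u; ring
  obtain ⟨h2, h3⟩ := hC f hf
  rw [h1]
  refine ⟨r3_H0_smul b (r3_H0_add h2 (r3_H0_smul (-l) hf)), ?_⟩
  rw [r3_crd_smul, r3_crd_add, h3, r3_crd_smul, Matrix.smul_mulVec, Matrix.sub_mulVec,
    Matrix.smul_mulVec, Matrix.one_mulVec]
  rw [neg_smul, sub_eq_add_neg]

lemma r3_nC {N : ℕ} (hN : 2 ≤ N) (m : ℕ) {f : List ℕ → ℂ} (hf : H0 N f) :
    H0 N (nC N m f) ∧ crd N (nC N m f) = nM N m *ᵥ crd N f := by
  induction m with
  | zero => exact ⟨hf, by rw [nM, Matrix.one_mulVec]; rfl⟩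
  | succ m ih =>
    have h := r3_poly (Cas N) (LM N) (fun f hf => ⟨H0_Cas hN hf, crd_Cas hN hf⟩)
      (TB.bb N (m + 1 : ℕ))⁻¹ (TB.lam N m) ih.1
    refine ⟨h.1, ?_⟩
    have h2 : crd N (nC N (m + 1) f) = _ := h.2
    rw [h2, ih.2, Matrix.mulVec_mulVec, nM, Matrix.smul_mul]

/-- the same polynomials on the last two strands -/
noncomputable def r3_nK (N : ℕ) : ℕ → (List ℕ → ℂ) → List ℕ → ℂ
  | 0, f => f
  | m + 1, f => fun u =>
      (TB.bb N (m + 1 : ℕ))⁻¹ * (CasK N 1 (r3_nK N m f) u - TB.lam N m * r3_nK N m f u)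

lemma r3_nK_cons (N m : ℕ) (f : List ℕ → ℂ) (x : ℕ) :
    (fun u => r3_nK N m f (x :: u)) = nC N m (fun u => f (x :: u)) := by
  induction m with
  | zero => rfl
  | succ m ih =>
    funext u
    simp only [r3_nK, nC, CasK]
    rw [← ih]

lemma r3_nC1 {N : ℕ} (hN : 2 ≤ N) (m : ℕ) {f : List ℕ → ℂ} (hf : H0 N f) :
    H0 N (r3_nK N m f) ∧ crd N (r3_nK N m f) = (nM N m)ᵀ *ᵥ crd N f := by
  induction m with
  | zero => exact ⟨hf, by rw [nM, Matrix.transpose_one, Matrix.one_mulVec]; rfl⟩
  | succ m ih =>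
    have h := r3_poly (CasK N 1) (LM N)ᵀ (fun f hf => ⟨H0_Cas1 hN hf, crd_Cas1 hN hf⟩)
      (TB.bb N (m + 1 : ℕ))⁻¹ (TB.lam N m) ih.1
    refine ⟨h.1, ?_⟩
    have h2 : crd N (r3_nK N (m + 1) f) = _ := h.2
    rw [h2, ih.2, Matrix.mulVec_mulVec, nM]
    congr 1
    have h3 : (LM N - TB.lam N m • (1 : Matrix (Fin N) (Fin N) ℂ)) * nM N m =
        nM N m * (LM N - TB.lam N m • (1 : Matrix (Fin N) (Fin N) ℂ)) := by
      rw [Matrix.sub_mul, Matrix.mul_sub, r4_nM_comm, Matrix.smul_mul, Matrix.mul_smul,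
        Matrix.one_mul, Matrix.mul_one]
    rw [Matrix.transpose_smul, h3, Matrix.transpose_mul, Matrix.transpose_sub,
      Matrix.transpose_smul, Matrix.transpose_one, Matrix.smul_mul]

/-! ### the diagram -/

lemma r3_wf_sh {n m : ℕ} {D : Diagram} (h : wf n D m) : wf (n + 1) (sh 1 D) (m + 1) := by
  induction D generalizing n with
  | nil => simp only [wf, sh, List.map_nil] at h ⊢; omega
  | cons s D ih =>
    obtain ⟨k, p⟩ := s
    have e : sh 1 ((k, p) :: D) = (k + 1, p) :: sh 1 D := rfl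
    rw [e]
    cases p with
    | cup =>
      simp only [wf] at h ⊢
      refine ⟨by omega, ?_⟩
      have := ih h.2
      rwa [show n + 2 + 1 = n + 1 + 2 by ring] at this
    | cap =>
      simp only [wf] at h ⊢
      refine ⟨by omega, ?_⟩
      have := ih h.2
      rwa [show n - 2 + 1 = n + 1 - 2 by omega] at this
    | pos =>
      simp only [wf] at h ⊢
      exact ⟨by omega, ih h.2⟩
    | neg =>
      simp only [wf] at h ⊢
      exact ⟨by omega, ih h.2⟩

lemma r3_RT_zero (N : ℕ) (D : Diagram) : RT N D (fun _ => 0) = fun _ => 0 := by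
  rw [← RTL_apply]; exact map_zero _

/-- diagrams preserve invariant vectors -/
lemma r3_H0_RT {N : ℕ} (hN : 2 ≤ N) {D : Diagram} (h : wf 3 D 3) {f : List ℕ → ℂ}
    (hf : H0 N f) : H0 N (RT N D f) where
  sup := RT_Sup h hf.sup
  kerE := by
    rw [← RT_E hN, hf.kerE]
    exact r3_RT_zero N D
  lev := by
    intro a b c habc
    have h1 := congrFun (RT_wtl (N := N) D (fun y => if y = (N : ℤ) - 1 then 0 else 1) f) [a, b, c]
    have h2 : (fun u => (fun y : ℤ => if y = (N : ℤ) - 1 then (0 : ℂ) else 1) (wtl N u) * f u) =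
        fun _ => 0 := by
      funext u
      by_cases hu : u.length = 3 ∧ ∀ x ∈ u, x < N
      · obtain ⟨x, y, z, rfl⟩ := List.length_eq_three.mp hu.1
        by_cases hs : x + y + z = N - 1
        · have : wtl N [x, y, z] = (N : ℤ) - 1 := by
            simp only [wtl, wt]; push_cast; omega
          simp only [if_pos this, zero_mul]
        · rw [hf.lev x y z hs, mul_zero]
      · rw [hf.sup u hu, mul_zero]
    rw [h2, r3_RT_zero] at h1
    have h3 : wtl N [a, b, c] ≠ (N : ℤ) - 1 := by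
      simp only [wtl, wt]; push_cast; omega
    simp only [if_neg h3, one_mul] at h1
    exact h1.symm

section main

variable {N : ℕ} {D : Diagram} {w : Fin N → ℂ} {κ : ℂ}

lemma r3_L_crd (hN : 2 ≤ N) (w : Fin N → ℂ) {f : List ℕ → ℂ} (hf : H0 N f) :
    H0 N (r3_L N w f) ∧ crd N (r3_L N w f) = ∑ m : Fin N, w m • (nM N m *ᵥ crd N f) :=
  r3_sum univ (fun (m : Fin N) u => w m * nC N m f u) (fun m => w m • (nM N m *ᵥ crd N f))
    (fun m _ => ⟨r3_H0_smul _ (r3_nC hN m hf).1, by rw [r3_crd_smul, (r3_nC hN m hf).2]⟩)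

lemma r3_base (hN : 2 ≤ N) (h : wf 2 D 2)
    (h1 : crd N (slice N .cup 1 (ket [0])) = κ • e0 N)
    (hw : crd N (RT N D (slice N .cup 1 (ket [0]))) = κ • w) :
    RT N D (slice N .cup 1 (ket [0])) = r3_L N w (slice N .cup 1 (ket [0])) := by
  have hc := H0_cup1 hN
  have hA := r3_H0_RT hN (r3_wf_right h) hc
  have hB := r3_L_crd hN w hc
  have hcrd : crd N (r3_L N w (slice N .cup 1 (ket [0]))) = κ • w := by
    rw [hB.2, h1]
    funext i
    have e : ∀ m : Fin N, (w m • (nM N m *ᵥ (κ • e0 N))) i = if i = m then κ * w m else 0 := by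
      intro m
      rw [Matrix.mulVec_smul, r4_nM_e0 m.2]
      simp only [Pi.smul_apply, smul_eq_mul]
      by_cases him : i = m
      · rw [if_pos him, if_pos (by rw [him])]; ring
      · rw [if_neg him, if_neg (fun h' => him (Fin.ext h'))]; ring
    rw [Finset.sum_apply]
    simp only [e]
    simp
  have hdiff : H0 N (fun u => RT N D (slice N .cup 1 (ket [0])) u +
      (fun u => (-1) * r3_L N w (slice N .cup 1 (ket [0])) u) u) :=
    r3_H0_add hA (r3_H0_smul (-1) hB.1)
  have hz := crd_inj hN hdiff (by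
    rw [r3_crd_add, r3_crd_smul, hw, hcrd]
    simp)
  funext u
  have := congrFun hz u
  simp only [Pi.zero_apply] at this
  linear_combination this

lemma r3_ket (hN : 2 ≤ N) (h : wf 2 D 2)
    (h1 : crd N (slice N .cup 1 (ket [0])) = κ • e0 N)
    (hw : crd N (RT N D (slice N .cup 1 (ket [0]))) = κ • w) :
    ∀ i < N, RT N D (slice N .cup 1 (ket [i])) = r3_L N w (slice N .cup 1 (ket [i])) := by
  intro i
  induction i with
  | zero => intro _; exact r3_base hN h h1 hw
  | succ i ih =>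
    intro hi
    have hk : Sup N 1 (ket [i]) := Sup_ket (w := [i]) (by intro x hx; simp at hx; omega)
    have hS : Sup N 3 (slice N .cup 1 (ket [i])) := hk.cup 1
    rw [← Fop_ket hi, slice_F hN, RT_F hN, ih (by omega), ← r3_L_F (n := 1) hN w hS]

lemma r3_two (hN : 2 ≤ N) (h : wf 2 D 2)
    (h1 : crd N (slice N .cup 1 (ket [0])) = κ • e0 N)
    (hw : crd N (RT N D (slice N .cup 1 (ket [0]))) = κ • w) {i j : ℕ} (hi : i < N) (hj : j < N)
    (a b : ℕ) : RT N D (ket [i, j]) [a, b] = r3_L N w (ket [i, j]) [a, b] := by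
  have h2 := congrFun (r3_ket hN h h1 hw i hi) [a, b, N - 1 - j]
  have hfun : ∀ u : List ℕ, u.length = 2 →
      slice N .cup 1 (ket [i]) (u ++ [N - 1 - j]) = cupC N j * ket [i, j] u := by
    intro u hu
    obtain ⟨x, y, rfl⟩ := List.length_eq_two.mp hu
    simp only [List.cons_append, List.nil_append, slice, piece, ket, List.cons.injEq, and_true]
    by_cases hy : y = j
    · subst hy
      rw [if_pos (by omega)]
      by_cases hx : x = i
      · simp [hx]
      · simp [hx]
    · rw [if_neg (by omega), if_neg (fun h => hy h.2), mul_zero]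
  have h3 : RT N D (slice N .cup 1 (ket [i])) [a, b, N - 1 - j] =
      cupC N j * RT N D (ket [i, j]) [a, b] := by
    have := RT_right (N := N) h (slice N .cup 1 (ket [i])) [a, b] [N - 1 - j] rfl
    have e1 : [a, b] ++ [N - 1 - j] = [a, b, N - 1 - j] := rfl
    rw [e1] at this
    rw [this, RT_congr h hfun [a, b] rfl]
    have e2 : (fun u => cupC N j * ket [i, j] u) = cupC N j • ket [i, j] := rfl
    rw [e2, ← RTL_apply, map_smul, RTL_apply]
    rfl
  have h4 : r3_L N w (slice N .cup 1 (ket [i])) [a, b, N - 1 - j] =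
      cupC N j * r3_L N w (ket [i, j]) [a, b] := by
    rw [r3_L_apply, r3_L_apply, mul_sum]
    apply sum_congr rfl
    intro m _
    rw [r3_nC_right N m _ [N - 1 - j]]
    have h5 : ∀ a b : ℕ, (fun u => slice N .cup 1 (ket [i]) (u ++ [N - 1 - j])) [a, b] =
        (fun u => cupC N j * ket [i, j] u) [a, b] := fun a b => hfun [a, b] rfl
    rw [r3_nC_congr (f := fun u => slice N .cup 1 (ket [i]) (u ++ [N - 1 - j]))
      (g := fun u => cupC N j * ket [i, j] u) h5, r3_nC_smul]
    ring
  rw [h3, h4] at h2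
  exact mul_left_cancel₀ (cupC_ne N j) h2

lemma r3_expand {f : List ℕ → ℂ} (hf : Sup N 2 f) :
    f = ∑ i ∈ range N, ∑ j ∈ range N, f [i, j] • ket [i, j] := by
  funext u
  simp only [Finset.sum_apply, Pi.smul_apply, smul_eq_mul]
  by_cases hu : u.length = 2 ∧ ∀ x ∈ u, x < N
  · obtain ⟨x, y, rfl⟩ := List.length_eq_two.mp hu.1
    have hx : x < N := hu.2 x (by simp)
    have hy : y < N := hu.2 y (by simp)
    rw [sum_eq_single x, sum_eq_single y]
    · simp [ket]
    · intro j _ hj
      simp only [ket]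
      rw [if_neg (fun h => hj (by simpa using h.symm)), mul_zero]
    · intro hh; exact absurd (mem_range.mpr hy) hh
    · intro i _ hi
      apply sum_eq_zero
      intro j _
      simp only [ket]
      rw [if_neg, mul_zero]
      intro h
      simp only [List.cons.injEq] at h
      exact hi h.1.symm
    · intro hh; exact absurd (mem_range.mpr hx) hh
  · rw [hf u hu]
    symm
    apply sum_eq_zero
    intro i hi
    apply sum_eq_zero
    intro j hj
    rw [mem_range] at hi hj
    simp only [ket]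
    rw [if_neg, mul_zero]
    rintro rfl
    apply hu
    refine ⟨rfl, ?_⟩
    intro x hx
    simp only [List.mem_cons, List.not_mem_nil, or_false] at hx
    rcases hx with rfl | rfl <;> assumption

lemma r3_gen2 (hN : 2 ≤ N) (h : wf 2 D 2)
    (h1 : crd N (slice N .cup 1 (ket [0])) = κ • e0 N)
    (hw : crd N (RT N D (slice N .cup 1 (ket [0]))) = κ • w) {f : List ℕ → ℂ} (hf : Sup N 2 f)
    (a b : ℕ) : RT N D f [a, b] = r3_L N w f [a, b] := by
  rw [← RTL_apply, r3_expand hf, map_sum, map_sum, Finset.sum_apply, Finset.sum_apply]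
  apply sum_congr rfl
  intro i hi
  rw [map_sum, map_sum, Finset.sum_apply, Finset.sum_apply]
  apply sum_congr rfl
  intro j hj
  rw [mem_range] at hi hj
  rw [map_smul, map_smul, RTL_apply, Pi.smul_apply, Pi.smul_apply, r3_two hN h h1 hw hi hj]

/-- main statement of the module: the vector `w` of a tangle `D` determines its action on the
first two and on the last two of three strands -/
theorem tangle_poly {N : ℕ} (hN : 2 ≤ N) {D : Diagram} (h : wf 2 D 2) {w : Fin N → ℂ}
    {κ : ℂ} (hκ : κ ≠ 0) (h1 : crd N (slice N .cup 1 (ket [0])) = κ • e0 N)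
    (hw : crd N (RT N D (slice N .cup 1 (ket [0]))) = κ • w) :
    (∀ f, H0 N f → H0 N (RT N D f) ∧ crd N (RT N D f) = ∑ m : Fin N, w m • (nM N m *ᵥ crd N f)) ∧
    (∀ f, H0 N f → H0 N (RT N (sh 1 D) f) ∧
      crd N (RT N (sh 1 D) f) = ∑ m : Fin N, w m • ((nM N m)ᵀ *ᵥ crd N f)) := by
  constructor
  · intro f hf
    have hA := r3_H0_RT hN (r3_wf_right h) hf
    have hB := r3_L_crd hN w hf
    have heq : RT N D f = r3_L N w f := by
      funext u
      by_cases hu : u.length = 3 ∧ ∀ x ∈ u, x < N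
      · obtain ⟨x, y, z, rfl⟩ := List.length_eq_three.mp hu.1
        have e1 : [x, y, z] = [x, y] ++ [z] := rfl
        have hS : Sup N 2 (fun u => f (u ++ [z])) := by
          intro v hv
          apply hf.sup
          rintro ⟨h2, h3⟩
          apply hv
          refine ⟨by simpa using h2, fun x hx => h3 x (by simp [hx])⟩
        have h2 := RT_right (N := N) h f [x, y] [z] rfl
        rw [← e1] at h2
        rw [h2, r3_gen2 hN h h1 hw hS, r3_L_apply, r3_L_apply]
        apply sum_congr rfl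
        intro m _
        rw [r3_nC_right N m f [z]]
      · rw [hA.sup u hu, hB.1.sup u hu]
    exact ⟨hA, by rw [heq]; exact hB.2⟩
  · intro f hf
    have hA := r3_H0_RT hN (r3_wf_sh h) hf
    have hB := r3_sum univ (fun (m : Fin N) u => w m * r3_nK N m f u)
      (fun m => w m • ((nM N m)ᵀ *ᵥ crd N f))
      (fun m _ => ⟨r3_H0_smul _ (r3_nC1 hN m hf).1, by rw [r3_crd_smul, (r3_nC1 hN m hf).2]⟩)
    have heq : RT N (sh 1 D) f = fun u => ∑ m : Fin N, w m * r3_nK N m f u := by
      funext u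
      by_cases hu : u.length = 3 ∧ ∀ x ∈ u, x < N
      · obtain ⟨x, y, z, rfl⟩ := List.length_eq_three.mp hu.1
        rw [RT_left, r3_gen2 hN h h1 hw (hf.sup.cons x), r3_L_apply]
        apply sum_congr rfl
        intro m _
        rw [← r3_nK_cons]
      · rw [hA.sup u hu]
        exact (hB.1.sup u hu).symm
    refine ⟨hA, ?_⟩
    rw [heq]
    exact hB.2

end main

end Pool.Agent.Helper9.Kashaev
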