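import Pool.Agent.Helper9.TG.TreeDefs
import Pool.Agent.Helper9.TF.StateB

/-!
# Diagram calculus
-/

namespace Pool.Agent.Helper9.Kashaev

open Finset
open Pool.Agent.Helper9.TG

/-- the diagram `D` goes from `n` strands to `m` strands -/
def wf : ℕ → Diagram → ℕ → Prop
  | n, [], m => n = m
  | n, (k, .cup) :: D, m => k ≤ n ∧ wf (n + 2) D m
  | n, (k, .cap) :: D, m => k + 2 ≤ n ∧ wf (n - 2) D m
  | n, (k, .pos) :: D, m => k + 2 ≤ n ∧ wf n D m
  | n, (k, .neg) :: D, m => k + 2 ≤ n ∧ wf n D m

/-- shift by `k` strands -/
def sh (k : ℕ) (D : Diagram) : Diagram := D.map (fun s => (s.1 + k, s.2))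

theorem wf_append {n m l : ℕ} {D D' : Diagram} (h : wf n D m) (h' : wf m D' l) :
    wf n (D ++ D') l := by
  induction D generalizing n with
  | nil => simp only [wf] at h; subst h; exact h'
  | cons s D ih =>
    obtain ⟨k, p⟩ := s
    cases p with
    | cup => exact ⟨h.1, ih h.2⟩
    | cap => exact ⟨h.1, ih h.2⟩
    | pos => exact ⟨h.1, ih h.2⟩
    | neg => exact ⟨h.1, ih h.2⟩

theorem wf_sh {n m : ℕ} {D : Diagram} (h : wf n D m) (k : ℕ) : wf (n + k) (sh k D) (m + k) := by
  induction D generalizing n with
  | nil => simp only [wf, sh, List.map_nil] at h ⊢; omega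
  | cons s D ih =>
    obtain ⟨j, p⟩ := s
    have e : sh k ((j, p) :: D) = (j + k, p) :: sh k D := rfl
    rw [e]
    cases p with
    | cup =>
      simp only [wf] at h ⊢
      refine ⟨by omega, ?_⟩
      have := ih h.2
      rwa [show n + 2 + k = n + k + 2 by ring] at this
    | cap =>
      simp only [wf] at h ⊢
      refine ⟨by omega, ?_⟩
      have := ih h.2
      rwa [show n - 2 + k = n + k - 2 by omega] at this
    | pos =>
      simp only [wf] at h ⊢
      exact ⟨by omega, ih h.2⟩
    | neg =>
      simp only [wf] at h ⊢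
      exact ⟨by omega, ih h.2⟩

lemma h96_wf_replicate {n k : ℕ} (hk : k + 2 ≤ n) {p : Piece} (hp : p = .pos ∨ p = .neg) (r : ℕ) :
    wf n (List.replicate r (k, p)) n := by
  induction r with
  | zero => rfl
  | succ r ih =>
    rw [List.replicate_succ]
    rcases hp with rfl | rfl
    · exact ⟨hk, ih⟩
    · exact ⟨hk, ih⟩

theorem wf_tangle (k : ℕ) (s : Bool) (t : PTree) (n : ℕ) (hk : k + 2 ≤ n) :
    wf n (tangle k s t) n := by
  induction t generalizing k s n with
  | leaf a =>
    simp only [tangle, twist]
    refine h96_wf_replicate hk ?_ _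
    split_ifs
    · exact Or.inl rfl
    · exact Or.inr rfl
  | graft p c ihp ihc =>
    simp only [tangle]
    refine wf_append (wf_append (wf_append (ihp k s n hk) (m := n) (l := n + 2) ?_)
      (ihc (k + 1) (!s) (n + 2) (by omega))) ?_
    · exact ⟨by omega, rfl⟩
    · exact ⟨by omega, by show n + 2 - 2 = n; omega⟩

theorem tangle_sh (k : ℕ) (s : Bool) (t : PTree) : tangle (k + 1) s t = sh 1 (tangle k s t) := by
  induction t generalizing k s with
  | leaf a => simp [tangle, twist, sh]
  | graft p c ihp ihc =>
    simp only [tangle]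
    rw [ihp, ihc]
    simp [sh]

/-! ### locality -/

lemma h96_congr_cup {N : ℕ} (k : ℕ) : ∀ (n : ℕ), k ≤ n → ∀ f g : List ℕ → ℂ,
    (∀ u : List ℕ, u.length = n → f u = g u) →
    ∀ u : List ℕ, u.length = n + 2 → slice N .cup k f u = slice N .cup k g u := by
  induction k with
  | zero =>
    intro n _ f g hfg u hu
    rcases u with _ | ⟨a, _ | ⟨b, w⟩⟩
    · rfl
    · rfl
    simp only [slice, piece]
    rw [hfg w (by simpa using hu)]
  | succ k ih =>
    intro n hk f g hfg u hu
    rcases u with _ | ⟨x, w⟩
    · rfl
    simp only [slice]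
    apply ih (n - 1) (by omega)
    · intro v hv
      apply hfg
      rw [List.length_cons]; omega
    · rw [List.length_cons] at hu; omega

lemma h96_congr_cap {N : ℕ} (k : ℕ) : ∀ (n : ℕ), k ≤ n → ∀ f g : List ℕ → ℂ,
    (∀ u : List ℕ, u.length = n + 2 → f u = g u) →
    ∀ u : List ℕ, u.length = n → slice N .cap k f u = slice N .cap k g u := by
  induction k with
  | zero =>
    intro n _ f g hfg u hu
    simp only [slice, piece]
    apply sum_congr rfl
    intro a _
    rw [hfg _ (by simpa using hu)]
  | succ k ih =>
    intro n hk f g hfg u hu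
    rcases u with _ | ⟨x, w⟩
    · rfl
    simp only [slice]
    apply ih (n - 1) (by omega)
    · intro v hv
      apply hfg
      rw [List.length_cons]; omega
    · rw [List.length_cons] at hu; omega

lemma h96_congr_cr {N : ℕ} {p : Piece} (hp : p = .pos ∨ p = .neg) (k : ℕ) :
    ∀ (n : ℕ), ∀ f g : List ℕ → ℂ, (∀ u : List ℕ, u.length = n → f u = g u) →
    ∀ u : List ℕ, u.length = n → slice N p k f u = slice N p k g u := by
  induction k with
  | zero =>
    intro n f g hfg u hu
    rcases hp with rfl | rfl
    · rcases u with _ | ⟨a, _ | ⟨b, w⟩⟩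
      · rfl
      · rfl
      simp only [slice, piece]
      apply sum_congr rfl
      intro m _
      rw [hfg ((b + m) :: (a - m) :: w) (by simpa using hu)]
    · rcases u with _ | ⟨a, _ | ⟨b, w⟩⟩
      · rfl
      · rfl
      simp only [slice, piece]
      apply sum_congr rfl
      intro m _
      rw [hfg ((b - m) :: (a + m) :: w) (by simpa using hu)]
  | succ k ih =>
    intro n f g hfg u hu
    rcases u with _ | ⟨x, w⟩
    · rfl
    simp only [slice]
    rw [List.length_cons] at hu
    apply ih (n - 1)
    · intro v hv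
      apply hfg
      rw [List.length_cons]; omega
    · omega

/-- the value on words of length `m` depends only on the values on words of length `n` -/
theorem RT_congr {N n m : ℕ} {D : Diagram} (h : wf n D m) {f g : List ℕ → ℂ}
    (hfg : ∀ u : List ℕ, u.length = n → f u = g u) :
    ∀ u : List ℕ, u.length = m → RT N D f u = RT N D g u := by
  induction D generalizing n f g with
  | nil =>
    simp only [wf] at h
    subst h
    exact hfg
  | cons s D ih =>
    obtain ⟨k, p⟩ := s
    simp only [RT]
    cases p with
    | cup => exact ih h.2 (h96_congr_cup k n h.1 f g hfg)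
    | cap =>
      simp only [wf] at h
      apply ih h.2
      apply h96_congr_cap k (n - 2) (by omega)
      intro u hu
      exact hfg u (by omega)
    | pos => exact ih h.2 (h96_congr_cr (Or.inl rfl) k n f g hfg)
    | neg => exact ih h.2 (h96_congr_cr (Or.inr rfl) k n f g hfg)

theorem RT_left {N : ℕ} (D : Diagram) (f : List ℕ → ℂ) (x : ℕ) (u : List ℕ) :
    RT N (sh 1 D) f (x :: u) = RT N D (fun w => f (x :: w)) u := by
  induction D generalizing f with
  | nil => rfl
  | cons s D ih =>
    have e : sh 1 (s :: D) = (s.1 + 1, s.2) :: sh 1 D := rfl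
    rw [e]
    simp only [RT]
    rw [ih]
    rfl

lemma h96_right_cup {N : ℕ} (k : ℕ) (f : List ℕ → ℂ) (u w : List ℕ) (hu : k + 2 ≤ u.length) :
    slice N .cup k f (u ++ w) = slice N .cup k (fun u' => f (u' ++ w)) u := by
  induction k generalizing f u with
  | zero =>
    rcases u with _ | ⟨a, _ | ⟨b, u⟩⟩
    · simp at hu
    · simp at hu
    simp only [List.cons_append, slice, piece]
  | succ k ih =>
    rcases u with _ | ⟨x, u⟩
    · simp at hu
    simp only [List.cons_append, slice]
    rw [ih _ _ (by rw [List.length_cons] at hu; omega)]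

lemma h96_right_cap {N : ℕ} (k : ℕ) (f : List ℕ → ℂ) (u w : List ℕ) (hu : k ≤ u.length) :
    slice N .cap k f (u ++ w) = slice N .cap k (fun u' => f (u' ++ w)) u := by
  induction k generalizing f u with
  | zero => simp only [slice, piece, List.cons_append]
  | succ k ih =>
    rcases u with _ | ⟨x, u⟩
    · simp at hu
    simp only [List.cons_append, slice]
    rw [ih _ _ (by rw [List.length_cons] at hu; omega)]

lemma h96_right_cr {N : ℕ} {p : Piece} (hp : p = .pos ∨ p = .neg) (k : ℕ) (f : List ℕ → ℂ)
    (u w : List ℕ) (hu : k + 2 ≤ u.length) :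
    slice N p k f (u ++ w) = slice N p k (fun u' => f (u' ++ w)) u := by
  induction k generalizing f u with
  | zero =>
    rcases u with _ | ⟨a, _ | ⟨b, u⟩⟩
    · simp at hu
    · simp at hu
    rcases hp with rfl | rfl
    · simp only [List.cons_append, slice, piece]
    · simp only [List.cons_append, slice, piece]
  | succ k ih =>
    rcases u with _ | ⟨x, u⟩
    · simp at hu
    simp only [List.cons_append, slice]
    rw [ih _ _ (by rw [List.length_cons] at hu; omega)]

theorem RT_right {N n m : ℕ} {D : Diagram} (h : wf n D m) (f : List ℕ → ℂ) (u w : List ℕ)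
    (hu : u.length = m) : RT N D f (u ++ w) = RT N D (fun u' => f (u' ++ w)) u := by
  induction D generalizing n f with
  | nil => rfl
  | cons s D ih =>
    obtain ⟨k, p⟩ := s
    simp only [RT]
    cases p with
    | cup =>
      simp only [wf] at h
      rw [ih h.2]
      exact RT_congr h.2 (fun v hv => h96_right_cup k f v w (by omega)) u hu
    | cap =>
      simp only [wf] at h
      rw [ih h.2]
      exact RT_congr h.2 (fun v hv => h96_right_cap k f v w (by omega)) u hu
    | pos =>
      simp only [wf] at h
      rw [ih h.2]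
      exact RT_congr h.2 (fun v hv => h96_right_cr (Or.inl rfl) k f v w (by omega)) u hu
    | neg =>
      simp only [wf] at h
      rw [ih h.2]
      exact RT_congr h.2 (fun v hv => h96_right_cr (Or.inr rfl) k f v w (by omega)) u hu

theorem RT_Sup {N n m : ℕ} {D : Diagram} (h : wf n D m) {f : List ℕ → ℂ} (hf : Sup N n f) :
    Sup N m (RT N D f) := by
  induction D generalizing n f with
  | nil => simp only [wf] at h; subst h; exact hf
  | cons s D ih =>
    obtain ⟨k, p⟩ := s
    cases p with
    | cup => exact ih h.2 (hf.cup k)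
    | cap =>
      simp only [wf] at h
      refine ih h.2 ?_
      apply Sup.cap
      rwa [show n - 2 + 2 = n by omega]
    | pos => exact ih h.2 (hf.pos k)
    | neg => exact ih h.2 (hf.neg k)

/-! ### straightening -/

theorem zig1 {N n : ℕ} (hN : 1 ≤ N) {f : List ℕ → ℂ} (hf : Sup N n f) {k : ℕ} (hk : k < n) :
    slice N .cap (k + 1) (slice N .cup k f) = f := by
  induction k generalizing n f with
  | zero =>
    funext u
    rcases u with _ | ⟨x, w⟩
    · simp only [slice]
      rw [hf]
      rintro ⟨h1, _⟩
      rw [List.length_nil] at h1; omega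
    · simp only [slice, piece]
      by_cases hx : x < N
      · rw [sum_eq_single (N - 1 - x)]
        · rw [if_pos (by omega)]
          have e : N - 1 - (N - 1 - x) = x := by omega
          rw [e]
          unfold capC
          rw [e]
          field_simp [cupC_ne N x]
        · intro a ha hne
          rw [mem_range] at ha
          rw [if_neg (by omega), mul_zero]
        · intro h
          exact absurd (mem_range.mpr (by omega)) h
      · have h1 : f (x :: w) = 0 := by
          apply hf
          rintro ⟨_, h2⟩
          exact hx (h2 x (by simp))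
        rw [h1]
        apply sum_eq_zero
        intro a ha
        rw [if_neg (by omega), mul_zero]
  | succ k ih =>
    funext u
    rcases u with _ | ⟨x, w⟩
    · rw [hf]
      · rfl
      rintro ⟨h1, _⟩
      rw [List.length_nil] at h1; omega
    · obtain ⟨n, rfl⟩ : ∃ n', n = n' + 1 := ⟨n - 1, by omega⟩
      have := congrFun (ih (hf.cons x) (by omega)) w
      exact this

theorem zig2 {N n : ℕ} (hN : 1 ≤ N) {f : List ℕ → ℂ} (hf : Sup N n f) {k : ℕ} (hk : k < n) :
    slice N .cap k (slice N .cup (k + 1) f) = f := by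
  induction k generalizing n f with
  | zero =>
    funext u
    simp only [slice, piece]
    rcases u with _ | ⟨y, w⟩
    · simp only [slice, piece, mul_zero, sum_const_zero]
      rw [hf]
      rintro ⟨h1, _⟩
      rw [List.length_nil] at h1; omega
    · simp only [slice, piece]
      by_cases hy : y < N
      · rw [sum_eq_single y]
        · rw [if_pos (by omega)]
          unfold capC
          field_simp [cupC_ne N (N - 1 - y)]
        · intro a ha hne
          rw [mem_range] at ha
          rw [if_neg (by omega), mul_zero]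
        · intro h
          exact absurd (mem_range.mpr hy) h
      · have h1 : f (y :: w) = 0 := by
          apply hf
          rintro ⟨_, h2⟩
          exact hy (h2 y (by simp))
        rw [h1]
        apply sum_eq_zero
        intro a ha
        rw [mem_range] at ha
        rw [if_neg (by omega), mul_zero]
  | succ k ih =>
    funext u
    rcases u with _ | ⟨x, w⟩
    · rw [hf]
      · rfl
      rintro ⟨h1, _⟩
      rw [List.length_nil] at h1; omega
    · obtain ⟨n, rfl⟩ : ∃ n', n = n' + 1 := ⟨n - 1, by omega⟩
      have := congrFun (ih (hf.cons x) (by omega)) w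
      exact this

/-! ### sliding a turned tangle -/

lemma h96_cup3 {N : ℕ} (g : List ℕ → ℂ) (x y z : ℕ) (w : List ℕ) :
    slice N .cup 3 g ([x, y, z] ++ w) = piece N .cup (fun v => g ([x, y, z] ++ v)) w := rfl

/-- a minimum on the right commutes with a diagram on three strands -/
lemma h96_far {N : ℕ} {D : Diagram} (h : wf 3 D 3) {g : List ℕ → ℂ} (hg : Sup N 3 g)
    (h5 : wf 5 D 5) : RT N D (slice N .cup 3 g) = slice N .cup 3 (RT N D g) := by
  have hS1 : Sup N 5 (RT N D (slice N .cup 3 g)) := RT_Sup h5 (hg.cup 3)
  have hS2 : Sup N 5 (slice N .cup 3 (RT N D g)) := (RT_Sup h hg).cup 3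
  funext u
  by_cases hu : u.length = 5 ∧ ∀ x ∈ u, x < N
  · obtain ⟨x, y, z, a, b, rfl⟩ : ∃ x y z a b, u = [x, y, z, a, b] := by
      rcases u with _ | ⟨x, _ | ⟨y, _ | ⟨z, _ | ⟨a, _ | ⟨b, _ | ⟨c, u⟩⟩⟩⟩⟩⟩ <;> simp at hu
      exact ⟨x, y, z, a, b, rfl⟩
    have e : [x, y, z, a, b] = [x, y, z] ++ [a, b] := rfl
    have h1 := RT_right (N := N) h (slice N .cup 3 g) [x, y, z] [a, b] rfl
    have h2 := RT_congr (N := N) h (f := fun u' => slice N .cup 3 g (u' ++ [a, b]))
      (g := fun u' => (if a + b + 1 = N then cupC N a else 0) * g u') (by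
        intro v hv
        obtain ⟨x', y', z', rfl⟩ := List.length_eq_three.mp hv
        simp only [h96_cup3, piece, List.append_nil]
        split_ifs <;> simp) [x, y, z] rfl
    rw [e, h1, h2]
    have h3 : RT N D (fun u' => (if a + b + 1 = N then cupC N a else 0) * g u') =
        (if a + b + 1 = N then cupC N a else 0) • RT N D g := by
      rw [← RTL_apply, ← RTL_apply, ← map_smul]; rfl
    rw [h3]
    simp only [h96_cup3, piece, List.append_nil, Pi.smul_apply, smul_eq_mul]
    split_ifs <;> simp
  · rw [hS1 u hu, hS2 u hu]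

lemma h96_two_cups (N : ℕ) :
    slice N .cup 0 (slice N .cup 1 (ket [0])) = slice N .cup 3 (slice N .cup 0 (ket [0])) := by
  funext u
  rcases u with _ | ⟨a, _ | ⟨b, _ | ⟨c, _ | ⟨d, _ | ⟨e, w⟩⟩⟩⟩⟩
  · rfl
  · rfl
  · simp only [slice, piece, mul_zero, ite_self]
  · simp only [slice, piece, mul_zero, ite_self]
  · simp only [slice, piece, mul_zero, ite_self]
  · simp only [slice, piece]
    by_cases h1 : a + b + 1 = N
    · by_cases h2 : d + e + 1 = N
      · rw [if_pos h1, if_pos h2, if_pos h2, if_pos h1]; ring
      · rw [if_pos h1, if_neg h2, if_neg h2]; ring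
    · by_cases h2 : d + e + 1 = N
      · rw [if_neg h1, if_pos h2, if_neg h1]; ring
      · rw [if_neg h1, if_neg h2]

lemma h96_wf_right {n m : ℕ} {D : Diagram} (h : wf n D m) (j : ℕ) : wf (n + j) D (m + j) := by
  induction D generalizing n with
  | nil => simp only [wf] at h ⊢; omega
  | cons s D ih =>
    obtain ⟨k, p⟩ := s
    cases p with
    | cup =>
      simp only [wf] at h ⊢
      refine ⟨by omega, ?_⟩
      have := ih h.2
      rwa [show n + 2 + j = n + j + 2 by ring] at this
    | cap =>
      simp only [wf] at h ⊢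
      refine ⟨by omega, ?_⟩
      have := ih h.2
      rwa [show n - 2 + j = n + j - 2 by omega] at this
    | pos =>
      simp only [wf] at h ⊢
      exact ⟨by omega, ih h.2⟩
    | neg =>
      simp only [wf] at h ⊢
      exact ⟨by omega, ih h.2⟩

/-- sliding: a turned tangle next to a minimum -/
theorem turn_cup {N : ℕ} (hN : 1 ≤ N) {D : Diagram} (h : wf 2 D 2) :
    RT N ([(0, .cup)] ++ sh 1 D ++ [(2, .cap)]) (slice N .cup 1 (ket [0])) =
      RT N (sh 1 D) (slice N .cup 0 (ket [0])) := by
  have h3 : wf 3 (sh 1 D) 3 := wf_sh h 1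
  have h5 : wf 5 (sh 1 D) 5 := h96_wf_right h3 2
  have hk : Sup N 1 (ket [0]) := Sup_ket (w := [0]) (by intro x hx; simp at hx; omega)
  have hc : Sup N 3 (slice N .cup 0 (ket [0])) := hk.cup 0
  rw [RT_append, RT_append]
  show slice N .cap 2 (RT N (sh 1 D) (slice N .cup 0 (slice N .cup 1 (ket [0])))) = _
  rw [h96_two_cups, h96_far h3 hc h5]
  exact zig2 hN (RT_Sup h3 hc) (by norm_num)

end Pool.Agent.Helper9.Kashaev
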